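import Mathlib

namespace Pool.Agent.Results.MP_35c1fe_nt.Quad

open Finset

theorem sepc (S : Finset ℕ) (g u L : ℕ) (hg : 0 < g) (hS : ∀ s ∈ S, u ≤ s ∧ s ≤ u + L)
    (hsep : ∀ s ∈ S, ∀ t ∈ S, t < s → t + g ≤ s) : S.card ≤ L / g + 1 := by
  have key : ∀ s ∈ S, ∀ t ∈ S, t < s → (t - u) / g < (s - u) / g := by
    intro s hs t ht hts
    have h1 := hsep s hs t ht hts
    have h2 := hS t ht
    have h3 : (t - u + g) / g ≤ (s - u) / g := Nat.div_le_div_right (by omega)
    rw [Nat.add_div_right _ hg] at h3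
    omega
  rw [← card_range (L / g + 1)]
  apply card_le_card_of_injOn (fun s => (s - u) / g)
  · intro s hs
    have h2 := hS s hs
    have : (s - u) / g ≤ L / g := Nat.div_le_div_right (by omega)
    simp only [coe_range, Set.mem_Iio]
    omega
  · intro s hs t ht hst
    rcases lt_trichotomy s t with h | h | h
    · have := key t ht s hs h
      simp only at hst
      omega
    · exact h
    · have := key s hs t ht h
      simp only at hst
      omega

theorem core (A : Set ℕ) (α β : ℕ → ℕ)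
    (hA : ∀ n, 1 ≤ n → α n ∈ A ∧ β n ∈ A ∧ α n = β n + n)
    (hu : ∀ n, 1 ≤ n → ∀ a ∈ A, ∀ b ∈ A, a = b + n → a = α n)
    (k w : ℕ) (hw1 : 16 * (k + 1) ≤ w * w) (hw2 : 144 < w) (hw3 : w ≤ 2 ^ k)
    (hs : ∀ j, k ≤ j → ∀ n, 1 ≤ n → n ≤ w * 2 ^ j → α n < 4 ^ j) : False := by
  classical
  have p4 : ∀ j : ℕ, 4 ^ j = 2 ^ j * 2 ^ j := fun j => by rw [← mul_pow]; norm_num
  have sep : ∀ j, k ≤ j → ∀ a ∈ A, ∀ b ∈ A, b < a → 4 ^ j ≤ a → b + w * 2 ^ j ≤ a := by
    intro j hj a ha b hb hba h4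
    by_contra hc
    have h1 := hu (a - b) (by omega) a ha b hb (by omega)
    have h2 := hs j hj (a - b) (by omega) (by omega)
    omega
  have gpos : ∀ j, 0 < w * 2 ^ j := fun j => by positivity
  set I := Icc (4 ^ k) (4 ^ (k + 1)) with hI
  have hI1 : ∀ n ∈ I, 1 ≤ n ∧ 4 ^ k ≤ n ∧ n ≤ 4 ^ (k + 1) := by
    intro n hn
    rw [hI, mem_Icc] at hn
    have : 0 < 4 ^ k := by positivity
    omega
  -- small range
  set A1 := (range (4 ^ (k + 2))).filter (· ∈ A) with hA1
  have cA1 : A1.card ≤ 8 * 2 ^ k := by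
    have h1 : A1.offDiag.card ≤ (range (4 ^ (k + 2)) ×ˢ (univ : Finset Bool)).card := by
      apply card_le_card_of_injOn (fun p => if p.1 < p.2 then (p.2 - p.1, true) else (p.1 - p.2, false))
      · intro p hp
        simp only [coe_offDiag, Set.mem_offDiag, hA1, coe_filter, mem_range, Set.mem_ofPred_eq] at hp
        simp only [coe_product, coe_range, coe_univ, Set.mem_prod, Set.mem_Iio, Set.mem_univ, and_true]
        split_ifs <;> simp only <;> omega
      · intro p hp q hq hpq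
        simp only [coe_offDiag, Set.mem_offDiag, hA1, coe_filter, mem_range, Set.mem_ofPred_eq] at hp hq
        obtain ⟨⟨_, hp1⟩, ⟨_, hp2⟩, hp3⟩ := hp
        obtain ⟨⟨_, hq1⟩, ⟨_, hq2⟩, hq3⟩ := hq
        simp only at hpq
        split_ifs at hpq with h1 h2 h2
        · have e := (Prod.ext_iff.1 hpq).1
          simp only at e
          have a1 := hu (p.2 - p.1) (by omega) p.2 hp2 p.1 hp1 (by omega)
          have a2 := hu (p.2 - p.1) (by omega) q.2 hq2 q.1 hq1 (by omega)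
          exact Prod.ext (by omega) (by omega)
        · exact absurd (Prod.ext_iff.1 hpq).2 (by simp)
        · exact absurd (Prod.ext_iff.1 hpq).2 (by simp)
        · have e := (Prod.ext_iff.1 hpq).1
          simp only at e
          have a1 := hu (p.1 - p.2) (by omega) p.1 hp1 p.2 hp2 (by omega)
          have a2 := hu (p.1 - p.2) (by omega) q.1 hq1 q.2 hq2 (by omega)
          exact Prod.ext (by omega) (by omega)
    rw [offDiag_card, card_product, card_range, card_univ, Fintype.card_bool] at h1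
    by_contra hc
    have hc' : 8 * 2 ^ k + 1 ≤ A1.card := by omega
    have e : 4 ^ (k + 2) = 16 * (2 ^ k * 2 ^ k) := by rw [pow_add, p4]; ring
    have hp : 0 < 2 ^ k := by positivity
    obtain ⟨m, hm⟩ : ∃ m, A1.card = m + 1 := ⟨A1.card - 1, by omega⟩
    rw [hm, e] at h1
    have h2 : (m + 1) * (m + 1) - (m + 1) = (m + 1) * m := by
      rw [Nat.sub_eq_iff_eq_add (by nlinarith)]; ring
    rw [h2] at h1
    have h3 : 8 * 2 ^ k ≤ m := by omega
    nlinarith [Nat.mul_le_mul h3 h3]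
  have cL : ∀ j, k ≤ j → ∀ L, (((Icc (4 ^ j) (4 ^ j + L)).filter (· ∈ A)).card ≤ L / (w * 2 ^ j) + 1) := by
    intro j hj L
    apply sepc _ _ (4 ^ j) L (gpos j)
    · intro s hs
      simp only [mem_filter, mem_Icc] at hs
      exact hs.1
    · intro s hs t ht hts
      simp only [mem_filter, mem_Icc] at hs ht
      exact sep j hj s hs.2 t ht.2 hts hs.1.1
  have c0 : 4 * (I.filter (fun n => α n < 4 ^ (k + 2))).card ≤ 4 ^ (k + 1) := by
    have h1 := card_le_mul_card_image_of_maps_to (f := α)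
      (s := I.filter (fun n => α n < 4 ^ (k + 2)))
      (t := (Icc (4 ^ k) (4 ^ k + 16 * 4 ^ k)).filter (· ∈ A)) (by
        intro n hn
        rw [mem_filter] at hn
        have a1 := hI1 n hn.1
        have a2 := hA n a1.1
        have a3 : 4 ^ (k + 2) = 16 * 4 ^ k := by ring
        simp only [mem_filter, mem_Icc]
        exact ⟨⟨by omega, by omega⟩, a2.1⟩) (8 * 2 ^ k) (by
        intro a _
        refine le_trans ?_ cA1
        apply card_le_card_of_injOn β
        · intro n hn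
          simp only [coe_filter, mem_filter, Set.mem_ofPred_eq] at hn
          have a1 := hI1 n hn.1.1
          have a2 := hA n a1.1
          simp only [hA1, coe_filter, mem_range, Set.mem_ofPred_eq]
          exact ⟨by omega, a2.2.1⟩
        · intro n hn m hm hnm
          simp only [coe_filter, mem_filter, Set.mem_ofPred_eq] at hn hm
          have a2 := hA n (hI1 n hn.1.1).1
          have a3 := hA m (hI1 m hm.1.1).1
          omega)
    have h2 := cL k le_rfl (16 * 4 ^ k)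
    have h3 : w * (16 * 4 ^ k / (w * 2 ^ k)) ≤ 16 * 2 ^ k := by
      have hp : 0 < 2 ^ k := by positivity
      have := Nat.mul_div_le (16 * 4 ^ k) (w * 2 ^ k)
      rw [p4] at this ⊢
      apply Nat.le_of_mul_le_mul_left _ hp
      nlinarith
    set c := ((Icc (4 ^ k) (4 ^ k + 16 * 4 ^ k)).filter (· ∈ A)).card
    set d := 16 * 4 ^ k / (w * 2 ^ k)
    have h4 : w * c ≤ 17 * 2 ^ k := by nlinarith
    have h5 : 8 * c ≤ 2 ^ k := by nlinarith
    have e : 4 ^ (k + 1) = 4 * (2 ^ k * 2 ^ k) := by rw [pow_succ, p4]; ring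
    rw [e]
    nlinarith [Nat.mul_le_mul_left (2 ^ k) h5]
  have cj : ∀ j ∈ Ico (k + 1) (2 * k + 1),
      2 * (k + 1) * (I.filter (fun n => 4 ^ (j + 1) ≤ α n ∧ α n < 4 ^ (j + 2))).card ≤ 4 ^ (k + 1) := by
    intro j hj
    rw [mem_Ico] at hj
    have hN : 4 ^ (k + 1) ≤ 4 ^ j := Nat.pow_le_pow_right (by norm_num) hj.1
    have e1 : 4 ^ (j + 1) = 4 * 4 ^ j := by ring
    have h1 := card_le_mul_card_image_of_maps_to (f := α)
      (s := I.filter (fun n => 4 ^ (j + 1) ≤ α n ∧ α n < 4 ^ (j + 2)))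
      (t := (Icc (4 ^ (j + 1)) (4 ^ (j + 1) + 3 * 4 ^ (j + 1))).filter (· ∈ A)) (by
        intro n hn
        rw [mem_filter] at hn
        have a1 := hI1 n hn.1
        have a2 := hA n a1.1
        have a3 : 4 ^ (j + 2) = 4 * 4 ^ (j + 1) := by ring
        simp only [mem_filter, mem_Icc]
        exact ⟨⟨by omega, by omega⟩, a2.1⟩) (4 ^ (k + 1) / (w * 2 ^ j)) (by
        intro a _
        set S := (I.filter (fun n => 4 ^ (j + 1) ≤ α n ∧ α n < 4 ^ (j + 2))).filter (fun n => α n = a) with hS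
        have hS1 : ∀ n ∈ S, 1 ≤ n ∧ n ≤ 4 ^ (k + 1) ∧ 4 ^ (j + 1) ≤ a ∧ α n = a := by
          intro n hn
          simp only [hS, mem_filter] at hn
          have := hI1 n hn.1.1
          omega
        have h0 : 0 ∉ S := fun h => by have := hS1 0 h; omega
        have := sepc (insert 0 S) (w * 2 ^ j) 0 (4 ^ (k + 1)) (gpos j) (by
          intro s hs
          rcases mem_insert.1 hs with h | h
          · omega
          · have := hS1 s h; omega) (by
          intro s hs t ht hts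
          rcases mem_insert.1 hs with h | h
          · omega
          · have b1 := hS1 s h
            have b2 := hA s b1.1
            rcases mem_insert.1 ht with h' | h'
            · have := sep j (by omega) (α s) b2.1 (β s) b2.2.1 (by omega) (by omega)
              omega
            · have b3 := hS1 t h'
              have b4 := hA t b3.1
              have := sep j (by omega) (β t) b4.2.1 (β s) b2.2.1 (by omega) (by omega)
              omega)
        rw [card_insert_of_notMem h0] at this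
        omega)
    have h2 := cL (j + 1) (by omega) (3 * 4 ^ (j + 1))
    have hp : 0 < 2 ^ (j + 1) := by positivity
    have h3 : w * (3 * 4 ^ (j + 1) / (w * 2 ^ (j + 1))) ≤ 3 * 2 ^ (j + 1) := by
      have := Nat.mul_div_le (3 * 4 ^ (j + 1)) (w * 2 ^ (j + 1))
      rw [p4] at this ⊢
      apply Nat.le_of_mul_le_mul_left _ hp
      nlinarith
    have h6 : 2 ^ k ≤ 2 ^ (j + 1) := Nat.pow_le_pow_right (by norm_num) (by omega)
    have h7 := Nat.mul_div_le (4 ^ (k + 1)) (w * 2 ^ j)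
    set c := ((Icc (4 ^ (j + 1)) (4 ^ (j + 1) + 3 * 4 ^ (j + 1))).filter (· ∈ A)).card
    set d := 3 * 4 ^ (j + 1) / (w * 2 ^ (j + 1))
    set q := 4 ^ (k + 1) / (w * 2 ^ j)
    set r := (I.filter (fun n => 4 ^ (j + 1) ≤ α n ∧ α n < 4 ^ (j + 2))).card
    have h4 : w * c ≤ 8 * 2 ^ j := by
      have : 2 ^ (j + 1) = 2 * 2 ^ j := by ring
      nlinarith
    have h8 : w * w * r ≤ 8 * 4 ^ (k + 1) := by
      calc w * w * r ≤ w * w * (q * c) := Nat.mul_le_mul_left _ h1
        _ = (w * q) * (w * c) := by ring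
        _ ≤ (w * q) * (8 * 2 ^ j) := Nat.mul_le_mul_left _ h4
        _ = 8 * (w * 2 ^ j * q) := by ring
        _ ≤ 8 * 4 ^ (k + 1) := by omega
    nlinarith [Nat.mul_le_mul_right r hw1]
  have cover : I ⊆ I.filter (fun n => α n < 4 ^ (k + 2)) ∪
      (Ico (k + 1) (2 * k + 1)).biUnion
        (fun j => I.filter (fun n => 4 ^ (j + 1) ≤ α n ∧ α n < 4 ^ (j + 2))) := by
    intro n hn
    have a1 := hI1 n hn
    have a2 : α n < 4 ^ (2 * k + 2) := by
      apply hs _ (by omega) n a1.1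
      have : 4 ^ (k + 1) = 2 ^ (2 * k + 2) := by
        rw [show 2 * k + 2 = 2 * (k + 1) by ring, pow_mul]; norm_num
      have hp : 0 < 2 ^ (2 * k + 2) := by positivity
      nlinarith [a1.2.2]
    by_cases h : α n < 4 ^ (k + 2)
    · exact mem_union_left _ (mem_filter.2 ⟨hn, h⟩)
    · apply mem_union_right
      have h0 : α n ≠ 0 := by
        have : 0 < 4 ^ (k + 2) := by positivity
        omega
      have l1 : k + 2 ≤ Nat.log 4 (α n) := Nat.le_log_of_pow_le (by norm_num) (by omega)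
      have l2 : Nat.log 4 (α n) < 2 * k + 2 := Nat.log_lt_of_lt_pow h0 a2
      obtain ⟨j, hj⟩ : ∃ j, Nat.log 4 (α n) = j + 1 := ⟨Nat.log 4 (α n) - 1, by omega⟩
      rw [mem_biUnion]
      refine ⟨j, mem_Ico.2 ⟨by omega, by omega⟩, mem_filter.2 ⟨hn, ?_, ?_⟩⟩
      · rw [← hj]; exact Nat.pow_log_le_self 4 h0
      · rw [show j + 2 = j + 1 + 1 by ring, ← hj]; exact Nat.lt_pow_succ_log_self (by norm_num) _
  have t1 := (card_le_card cover).trans (card_union_le _ _)
  have t2 := card_biUnion_le (s := Ico (k + 1) (2 * k + 1))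
    (t := fun j => I.filter (fun n => 4 ^ (j + 1) ≤ α n ∧ α n < 4 ^ (j + 2)))
  have t3 := sum_le_card_nsmul _ _ _ cj
  rw [← mul_sum, Nat.card_Ico, smul_eq_mul, show 2 * k + 1 - (k + 1) = k by omega] at t3
  have t4 : I.card = 3 * 4 ^ k + 1 := by
    rw [hI, Nat.card_Icc, pow_succ]; omega
  set s := ∑ j ∈ Ico (k + 1) (2 * k + 1), (I.filter (fun n => 4 ^ (j + 1) ≤ α n ∧ α n < 4 ^ (j + 2))).card
  have t5 : 2 * s ≤ 4 ^ (k + 1) := by
    apply Nat.le_of_mul_le_mul_left _ (show 0 < k + 1 by omega)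
    nlinarith [Nat.zero_le (4 ^ (k + 1))]
  have e : 4 ^ (k + 1) = 4 * 4 ^ k := by ring
  omega

theorem result (A : Set ℕ)
    (hA : ∀ n : ℕ, 1 ≤ n → ∃! p : ℕ × ℕ, p.1 ∈ A ∧ p.2 ∈ A ∧ p.1 = p.2 + n) (N : ℕ) :
    ∃ n : ℕ, N ≤ n ∧ 3 ≤ n ∧ ∀ a ∈ A, ∀ b ∈ A, a = b + n →
      (1 / 30 : ℝ) * n * (n / Real.log n) ≤ a := by
  classical
  by_contra hc
  push Not at hc
  have hA' : ∀ n : ℕ, ∃ p : ℕ × ℕ, 1 ≤ n → (p.1 ∈ A ∧ p.2 ∈ A ∧ p.1 = p.2 + n) ∧
      ∀ q : ℕ × ℕ, (q.1 ∈ A ∧ q.2 ∈ A ∧ q.1 = q.2 + n) → q = p := by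
    intro n
    by_cases h : 1 ≤ n
    · obtain ⟨p, hp⟩ := hA n h
      exact ⟨p, fun _ => hp⟩
    · exact ⟨(0, 0), fun h' => absurd h' h⟩
  choose p hp using hA'
  have hu : ∀ n, 1 ≤ n → ∀ a ∈ A, ∀ b ∈ A, a = b + n → a = (p n).1 := by
    intro n hn a ha b hb e
    rw [← (hp n hn).2 (a, b) ⟨ha, hb, e⟩]
  set K := (range (N + 3)).sup (fun n => (p n).1) with hK
  set v := K + 40 with hv
  have v1 : 40 ≤ v := by omega
  have v2 : 0 < v * v := by positivity
  obtain ⟨k, hk⟩ : ∃ k, v * v = k + 1 := ⟨v * v - 1, by omega⟩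
  have k1 : 4 * v ≤ k := by nlinarith
  have k2 : k < 2 ^ k := Nat.lt_two_pow_self
  apply core A (fun n => (p n).1) (fun n => (p n).2) (fun n hn => (hp n hn).1) hu k (4 * v)
    (by nlinarith) (by omega) (by omega)
  intro j hj n hn1 hn2
  have j2 : 2 ^ k ≤ 2 ^ j := Nat.pow_le_pow_right (by norm_num) hj
  have j3 : 2 ^ j ≤ 4 ^ j := Nat.pow_le_pow_left (by norm_num) j
  by_cases hsm : n < N + 3
  · have : (p n).1 ≤ K := le_sup (f := fun n => (p n).1) (mem_range.2 hsm)
    show (p n).1 < 4 ^ j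
    omega
  obtain ⟨a, ha, b, hb, e, hlt⟩ := hc n (by omega) (by omega)
  have ea := hu n hn1 a ha b hb e
  show (p n).1 < 4 ^ j
  rw [← ea]
  have n3 : (3 : ℝ) ≤ n := by exact_mod_cast (show 3 ≤ n by omega)
  have l2 := Real.log_two_gt_d9
  have ln : Real.log 2 ≤ Real.log n := Real.log_le_log (by norm_num) (by linarith)
  have lp : 0 < Real.log n := by linarith
  have p4 : (4 : ℝ) ^ j = 2 ^ j * 2 ^ j := by rw [← mul_pow]; norm_num
  have hq : (0 : ℝ) < 2 ^ j := by positivity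
  have main : (1 / 30 : ℝ) * n * (n / Real.log n) ≤ 4 ^ j := by
    rw [← mul_div_assoc, div_le_iff₀ lp, p4]
    by_cases hn : (n : ℝ) ≤ 2 ^ j
    · have : (n : ℝ) * n ≤ 2 ^ j * 2 ^ j := mul_le_mul hn hn (by linarith) hq.le
      nlinarith [mul_pos hq hq]
    · have h1 : Real.log (2 ^ j) ≤ Real.log n := Real.log_le_log hq (by linarith)
      rw [Real.log_pow] at h1
      have h2 : (n : ℝ) ≤ 4 * v * 2 ^ j := by exact_mod_cast hn2
      have h3 : (n : ℝ) * n ≤ (4 * v * 2 ^ j) * (4 * v * 2 ^ j) :=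
        mul_le_mul h2 h2 (by linarith) (by positivity)
      have h4 : (v : ℝ) * v = k + 1 := by exact_mod_cast hk
      have h5 : (k : ℝ) ≤ j := by exact_mod_cast hj
      have h6 : (160 : ℝ) ≤ k := by exact_mod_cast (show 160 ≤ k by omega)
      have h7 : (1 / 30 : ℝ) * (16 * (k + 1)) ≤ Real.log n := by nlinarith
      calc (1 / 30 : ℝ) * n * n ≤ (1 / 30) * ((4 * v * 2 ^ j) * (4 * v * 2 ^ j)) := by nlinarith
        _ = (2 ^ j * 2 ^ j) * ((1 / 30 : ℝ) * (16 * (v * v))) := by ring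
        _ = (2 ^ j * 2 ^ j) * ((1 / 30 : ℝ) * (16 * (k + 1))) := by rw [h4]
        _ ≤ _ := mul_le_mul_of_nonneg_left h7 (by positivity)
  have : (a : ℝ) < 4 ^ j := lt_of_lt_of_le hlt main
  exact_mod_cast this

end Pool.Agent.Results.MP_35c1fe_nt.Quad
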